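import Pool.Agent.W223.VD.Stms

/-!
Project VD (helper223), part ZP: the algebraic integer attached to two points.
-/

set_option autoImplicit false

namespace Pool.Agent.W310.VD

open Polynomial IntermediateField NumberField Finset
open Pool.Agent.H813R3.Voj (value)

lemma natDegree_lin (a b : ℤ) : (C a * X - C b : ℤ[X]).natDegree ≤ 1 := by
  compute_degree

lemma coeff_lin (a b : ℤ) : (C a * X - C b : ℤ[X]).coeff 1 = a := by
  rw [coeff_sub, coeff_C_mul, coeff_X_one, mul_one, coeff_C_of_ne_zero (by norm_num), sub_zero]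

/-- the terms of the transformed polynomial -/
noncomputable def tm (r : ℕ) (P Q : ℤ × ℤ) (k : ℕ) : ℤ[X] :=
  (C Q.1 * X - C P.1) ^ k * (C Q.2 * X - C P.2) ^ (r - k)

lemma natDegree_pw (a b : ℤ) (k : ℕ) : ((C a * X - C b : ℤ[X]) ^ k).natDegree ≤ k := by
  have := natDegree_pow_le_of_le k (natDegree_lin a b)
  simpa using this

lemma natDegree_tm (r : ℕ) (P Q : ℤ × ℤ) (k : ℕ) (hk : k ≤ r) : (tm r P Q k).natDegree ≤ r := by
  unfold tm
  refine natDegree_mul_le.trans ?_
  have h1 := natDegree_pw Q.1 P.1 k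
  have h2 := natDegree_pw Q.2 P.2 (r - k)
  omega

lemma coeff_tm (r : ℕ) (P Q : ℤ × ℤ) (k : ℕ) (hk : k ≤ r) :
    (tm r P Q k).coeff r = Q.1 ^ k * Q.2 ^ (r - k) := by
  have h1 := natDegree_pw Q.1 P.1 k
  have h2 := natDegree_pw Q.2 P.2 (r - k)
  have h3 := coeff_mul_add_eq_of_natDegree_le h1 h2
  rw [Nat.add_sub_cancel' hk] at h3
  have h4 := coeff_pow_of_natDegree_le (m := k) (natDegree_lin Q.1 P.1)
  have h5 := coeff_pow_of_natDegree_le (m := r - k) (natDegree_lin Q.2 P.2)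
  rw [mul_one, coeff_lin] at h4 h5
  unfold tm
  rw [h3, h4, h5]

/-- the transformed polynomial -/
noncomputable def GG (r : ℕ) (P Q : ℤ × ℤ) (f : ℤ[X]) : ℤ[X] :=
  ∑ k ∈ range (r + 1), C (f.coeff k) * tm r P Q k

lemma natDegree_GG (r : ℕ) (P Q : ℤ × ℤ) (f : ℤ[X]) : (GG r P Q f).natDegree ≤ r := by
  unfold GG
  refine natDegree_sum_le_of_forall_le _ _ fun k hk => ?_
  refine natDegree_C_mul_le _ _ |>.trans (natDegree_tm r P Q k ?_)
  rw [mem_range] at hk
  omega

lemma coeff_GG (r : ℕ) (P Q : ℤ × ℤ) (f : ℤ[X]) (hf : f.natDegree = r) :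
    (GG r P Q f).coeff r = value f Q := by
  unfold GG value
  rw [finsetSum_coeff, hf]
  refine sum_congr rfl fun k hk => ?_
  rw [mem_range] at hk
  rw [coeff_C_mul, coeff_tm r P Q k (by omega)]
  ring

/-- the constant -/
noncomputable def cc (r : ℕ) (P Q : ℤ × ℤ) : ℝ :=
  ∑ i ∈ range (r + 1), ∑ k ∈ range (r + 1), |((tm r P Q k).coeff i : ℝ)|

lemma sum_coeff_le (r : ℕ) (P Q : ℤ × ℤ) (f : ℤ[X]) (H : ℝ) (hH : ∀ j, |(f.coeff j : ℝ)| ≤ H) :
    ∑ i ∈ range (r + 1), |((GG r P Q f).coeff i : ℝ)| ≤ cc r P Q * H := by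
  unfold cc
  rw [sum_mul]
  refine sum_le_sum fun i _ => ?_
  unfold GG
  rw [finsetSum_coeff]
  push_cast
  refine (abs_sum_le_sum_abs _ _).trans ?_
  rw [sum_mul]
  refine sum_le_sum fun k _ => ?_
  rw [coeff_C_mul]
  push_cast
  rw [abs_mul, mul_comm]
  exact mul_le_mul_of_nonneg_left (hH k) (abs_nonneg _)

lemma root_bound (r : ℕ) (hr : 1 ≤ r) (g : ℕ → ℤ) (z : ℂ)
    (h : ∑ k ∈ range (r + 1), (g k : ℂ) * z ^ k = 0) :
    ‖(g r : ℂ) * z‖ ≤ ∑ k ∈ range (r + 1), |(g k : ℝ)| := by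
  have hn : ∀ k, ‖(g k : ℂ)‖ = |(g k : ℝ)| := fun k => by
    rw [← Complex.ofReal_intCast, Complex.norm_real, Real.norm_eq_abs]
  by_cases hz : ‖z‖ ≤ 1
  · rw [norm_mul, hn]
    calc |(g r : ℝ)| * ‖z‖ ≤ |(g r : ℝ)| * 1 := mul_le_mul_of_nonneg_left hz (abs_nonneg _)
      _ = |(g r : ℝ)| := mul_one _
      _ ≤ _ := single_le_sum (f := fun k => |(g k : ℝ)|) (fun k _ => abs_nonneg _)
        (mem_range.2 (Nat.lt_succ_self r))
  · rw [not_le] at hz
    have hz0 : 0 < ‖z‖ := by linarith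
    rw [sum_range_succ] at h
    have h1 : (g r : ℂ) * z ^ r = -∑ k ∈ range r, (g k : ℂ) * z ^ k := by
      linear_combination h
    have h2 : ‖(g r : ℂ) * z‖ * ‖z‖ ^ (r - 1) ≤ (∑ k ∈ range r, |(g k : ℝ)|) * ‖z‖ ^ (r - 1) := by
      have e : ‖(g r : ℂ) * z‖ * ‖z‖ ^ (r - 1) = ‖(g r : ℂ) * z ^ r‖ := by
        rw [norm_mul, norm_mul, norm_pow, mul_assoc, ← pow_succ']
        congr 3
        omega
      rw [e, h1, norm_neg, sum_mul]
      refine (norm_sum_le _ _).trans (sum_le_sum fun k hk => ?_)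
      rw [norm_mul, norm_pow, hn]
      refine mul_le_mul_of_nonneg_left ?_ (abs_nonneg _)
      rw [mem_range] at hk
      exact pow_le_pow_right₀ hz.le (by omega)
    have h3 := le_of_mul_le_mul_right h2 (by positivity)
    rw [sum_range_succ]
    have := abs_nonneg (g r : ℝ)
    linarith

lemma value_prod {F : Type*} [Field F] {ι : Type*} [Fintype ι] (p : F[X]) (b : ι → F) (a u v : F)
    (hp : p = C a * ∏ i, (X - C (b i))) (ha : a ≠ 0) :
    ∑ j ∈ range (Fintype.card ι + 1), p.coeff j * u ^ j * v ^ (Fintype.card ι - j) =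
      a * ∏ i, (u - b i * v) := by
  have hd : p.natDegree = Fintype.card ι := by
    rw [hp, natDegree_C_mul ha, natDegree_finsetProd_X_sub_C_eq_card, card_univ]
  by_cases hv : v = 0
  · subst hv
    rw [sum_range_succ, sum_eq_zero, zero_add, Nat.sub_self, pow_zero, mul_one]
    · have h1 : p.coeff (Fintype.card ι) = a := by
        rw [← hd, coeff_natDegree, hp, leadingCoeff_mul, leadingCoeff_C,
          (monic_prod_of_monic _ _ fun i _ => monic_X_sub_C (b i)).leadingCoeff, mul_one]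
      rw [h1]
      simp [prod_const, card_univ]
    · intro j hj
      rw [mem_range] at hj
      rw [zero_pow (by omega), mul_zero]
  · have h1 : p.eval (u / v) * v ^ Fintype.card ι =
        ∑ j ∈ range (Fintype.card ι + 1), p.coeff j * u ^ j * v ^ (Fintype.card ι - j) := by
      rw [eval_eq_sum_range' (n := Fintype.card ι + 1) (by omega), sum_mul]
      refine sum_congr rfl fun j hj => ?_
      rw [mem_range] at hj
      have : v ^ Fintype.card ι = v ^ j * v ^ (Fintype.card ι - j) := by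
        rw [← pow_add]
        congr 1
        omega
      rw [this, div_pow]
      field_simp
    rw [← h1, hp, eval_mul, eval_C, eval_prod, mul_assoc]
    congr 1
    rw [← card_univ, ← prod_const, ← prod_mul_distrib]
    refine prod_congr rfl fun i _ => ?_
    rw [eval_sub, eval_X, eval_C]
    field_simp

theorem t : Pool.Agent.W223.VD.StmtZP := by
  classical
  intro r P Q hr hdet
  refine ⟨cc r P Q + 1, by
    have : 0 ≤ cc r P Q := by
      unfold cc
      exact sum_nonneg fun i _ => sum_nonneg fun k _ => abs_nonneg _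
    linarith, ?_⟩
  intro K _ _ hK x f H hx hf hfx hH hP hQ
  have hH0 : 0 ≤ H := (abs_nonneg _).trans (hH 0)
  have hfx' : ∑ j ∈ range (r + 1), (f.coeff j : K) * x ^ j = 0 := by
    rw [← hfx, aeval_eq_sum_range, hf]
    exact sum_congr rfl fun j _ => by rw [zsmul_eq_mul]
  -- L_Q is not zero
  have hLQ : (Q.1 : K) - x * (Q.2 : K) ≠ 0 := by
    intro h0
    apply hQ
    have h1 : (Q.1 : K) = x * Q.2 := sub_eq_zero.1 h0
    have h2 : ((value f Q : ℤ) : K) = 0 := by
      unfold value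
      push_cast
      rw [hf]
      have : ∀ j ∈ range (r + 1), (f.coeff j : K) * (Q.1 : K) ^ j * (Q.2 : K) ^ (r - j) =
          (Q.2 : K) ^ r * ((f.coeff j : K) * x ^ j) := by
        intro j hj
        rw [mem_range] at hj
        rw [h1, mul_pow]
        have e : (Q.2 : K) ^ r = (Q.2 : K) ^ j * (Q.2 : K) ^ (r - j) := by
          rw [← pow_add]; congr 1; omega
        rw [e]; ring
      rw [sum_congr rfl this, ← mul_sum, hfx', mul_zero]
    exact_mod_cast h2
  refine ⟨hLQ, ?_⟩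
  set LP : K := (P.1 : K) - x * (P.2 : K) with hLPdef
  set LQ : K := (Q.1 : K) - x * (Q.2 : K) with hLQdef
  set z : K := LP / LQ with hz
  set D : K := ((P.1 * Q.2 - Q.1 * P.2 : ℤ) : K) with hD
  have e1 : (Q.1 : K) * z - P.1 = x * (D / LQ) := by
    rw [hz, hD]
    field_simp
    rw [hLPdef, hLQdef]
    push_cast
    ring
  have e2 : (Q.2 : K) * z - P.2 = D / LQ := by
    rw [hz, hD]
    field_simp
    rw [hLPdef, hLQdef]
    push_cast
    ring
  have hG : aeval z (GG r P Q f) = 0 := by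
    unfold GG tm
    rw [map_sum]
    have : ∀ k ∈ range (r + 1), aeval z (C (f.coeff k) * ((C Q.1 * X - C P.1) ^ k *
        (C Q.2 * X - C P.2) ^ (r - k))) = (D / LQ) ^ r * ((f.coeff k : K) * x ^ k) := by
      intro k hk
      rw [mem_range] at hk
      simp only [map_mul, map_pow, map_sub, aeval_C, aeval_X, algebraMap_int_eq, Int.coe_castRingHom]
      rw [e1, e2, mul_pow]
      have e : (D / LQ) ^ r = (D / LQ) ^ k * (D / LQ) ^ (r - k) := by
        rw [← pow_add]; congr 1; omega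
      rw [e]; ring
    rw [sum_congr rfl this, ← mul_sum, hfx', mul_zero]
  have hdeg : (GG r P Q f).natDegree = r := by
    refine le_antisymm (natDegree_GG r P Q f) (le_natDegree_of_ne_zero ?_)
    rw [coeff_GG r P Q f hf]
    exact hQ
  have hlc : (GG r P Q f).leadingCoeff = value f Q := by
    rw [leadingCoeff, hdeg, coeff_GG r P Q f hf]
  have hint := isIntegral_leadingCoeff_smul (R := ℤ) (GG r P Q f) z hG
  rw [hlc, zsmul_eq_mul] at hint
  refine ⟨⟨(value f Q : K) * z, hint⟩, ?_, ?_, ?_⟩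
  · show (value f Q : K) * z * LQ = (value f Q : K) * LP
    rw [hz]
    field_simp
  · -- the norm
    have hcard : Fintype.card (K →ₐ[ℚ] ℂ) = r := by rw [AlgHom.card, hK]
    have hinj : Function.Injective (fun φ : K →ₐ[ℚ] ℂ => φ x) :=
      (Field.primitive_element_iff_algHom_eq_of_eval' ℚ ℂ (fun _ => IsAlgClosed.splits _) x).1 hx
    set p : ℂ[X] := f.map (Int.castRingHom ℂ) with hp
    have hf0 : f ≠ 0 := by
      rintro rfl
      rw [natDegree_zero] at hf
      omega
    have hp0 : p ≠ 0 := (Polynomial.map_ne_zero_iff (RingHom.injective_int _)).2 hf0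
    have hpd : p.natDegree = r := by
      rw [hp, natDegree_map_eq_of_injective (RingHom.injective_int _), hf]
    set S : Finset ℂ := univ.image (fun φ : K →ₐ[ℚ] ℂ => φ x) with hS
    have hSc : S.card = r := by
      rw [hS, card_image_of_injective _ hinj, card_univ, hcard]
    have hroots : p.roots = S.val := by
      refine roots_eq_of_natDegree_le_card_of_ne_zero ?_ (by rw [hSc, hpd]) hp0
      intro w hw
      rw [hS, mem_image] at hw
      obtain ⟨φ, -, rfl⟩ := hw
      have h1 := aeval_algHom_apply (φ.restrictScalars ℤ) x f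
      rw [hfx, map_zero] at h1
      rw [hp, ← algebraMap_int_eq, eval_map_algebraMap]
      exact h1
    have hfac : p = C p.leadingCoeff * ∏ φ : K →ₐ[ℚ] ℂ, (X - C (φ x)) := by
      have h1 := C_leadingCoeff_mul_prod_multiset_X_sub_C (p := p) (by rw [hroots, card_val, hSc, hpd])
      rw [hroots] at h1
      have h2 : (S.val.map (fun a => X - C a)).prod = ∏ φ : K →ₐ[ℚ] ℂ, (X - C (φ x)) := by
        have : (S.val.map (fun a => X - C a)).prod = ∏ a ∈ S, (X - C a) := rfl
        rw [this, hS, prod_image (fun φ _ ψ _ h => hinj h)]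
      rw [h2] at h1
      exact h1.symm
    have hlc0 : p.leadingCoeff ≠ 0 := leadingCoeff_ne_zero.2 hp0
    have hval : ∀ R : ℤ × ℤ, ((value f R : ℤ) : ℂ) =
        p.leadingCoeff * ∏ φ : K →ₐ[ℚ] ℂ, ((R.1 : ℂ) - φ x * (R.2 : ℂ)) := by
      intro R
      rw [← value_prod p (fun φ : K →ₐ[ℚ] ℂ => φ x) _ (R.1 : ℂ) (R.2 : ℂ) hfac hlc0, hcard]
      unfold value
      push_cast
      rw [hf]
      refine sum_congr rfl fun j _ => ?_
      rw [hp, coeff_map]
      simp
    have hnorm : ((Algebra.norm ℤ (⟨(value f Q : K) * z, hint⟩ : 𝓞 K) : ℤ) : ℂ) =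
        ∏ φ : K →ₐ[ℚ] ℂ, φ ((value f Q : K) * z) := by
      rw [← Algebra.norm_eq_prod_embeddings ℚ ℂ]
      have h1 : ((Algebra.norm ℤ (⟨(value f Q : K) * z, hint⟩ : 𝓞 K) : ℤ) : ℚ) =
        Algebra.norm ℚ ((value f Q : K) * z) := Algebra.coe_norm_int _
      rw [← h1]
      simp
    have hφ : ∀ (φ : K →ₐ[ℚ] ℂ) (R : ℤ × ℤ), φ ((R.1 : K) - x * (R.2 : K)) =
        (R.1 : ℂ) - φ x * (R.2 : ℂ) := by
      intro φ R
      rw [map_sub, map_mul, map_intCast, map_intCast]
    have hprod : (∏ φ : K →ₐ[ℚ] ℂ, φ ((value f Q : K) * z)) *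
        (∏ φ : K →ₐ[ℚ] ℂ, ((Q.1 : ℂ) - φ x * (Q.2 : ℂ))) =
        (value f Q : ℂ) ^ r * ∏ φ : K →ₐ[ℚ] ℂ, ((P.1 : ℂ) - φ x * (P.2 : ℂ)) := by
      rw [← prod_mul_distrib, ← hcard, ← card_univ, ← prod_const, ← prod_mul_distrib]
      refine prod_congr rfl fun φ _ => ?_
      rw [← hφ φ Q, ← hφ φ P, ← map_mul]
      have : (value f Q : K) * z * ((Q.1 : K) - x * (Q.2 : K)) = (value f Q : K) * LP := by
        rw [← hLQdef, hz]
        field_simp
      rw [this, map_mul, map_intCast]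
    have hfin : ((Algebra.norm ℤ (⟨(value f Q : K) * z, hint⟩ : 𝓞 K) : ℤ) : ℂ) * (value f Q : ℂ) =
        (value f Q : ℂ) ^ (r - 1) * (value f P : ℂ) * (value f Q : ℂ) := by
      rw [hnorm, hval P]
      have h1 : (value f Q : ℂ) ^ r = (value f Q : ℂ) ^ (r - 1) * (value f Q : ℂ) := by
        rw [← pow_succ]; congr 1; omega
      rw [h1] at hprod
      calc (∏ φ : K →ₐ[ℚ] ℂ, φ ((value f Q : K) * z)) * (value f Q : ℂ)
          = p.leadingCoeff * ((∏ φ : K →ₐ[ℚ] ℂ, φ ((value f Q : K) * z)) *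
            (∏ φ : K →ₐ[ℚ] ℂ, ((Q.1 : ℂ) - φ x * (Q.2 : ℂ)))) := by
            conv_lhs => rw [hval Q]
            ring
        _ = _ := by
            rw [hprod]
            ring
    have hQC : (value f Q : ℂ) ≠ 0 := by exact_mod_cast hQ
    have := mul_right_cancel₀ hQC hfin
    exact_mod_cast this
  · intro σ
    show ‖σ ((value f Q : K) * z)‖ ≤ _
    have h1 : ∑ k ∈ range (r + 1), (((GG r P Q f).coeff k : ℤ) : ℂ) * (σ z) ^ k = 0 := by
      have h2 : ∑ k ∈ range (r + 1), (((GG r P Q f).coeff k : ℤ) : K) * z ^ k = 0 := by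
        rw [← hG, aeval_eq_sum_range, hdeg]
        exact sum_congr rfl fun j _ => by rw [zsmul_eq_mul]
      have h3 := congrArg σ h2
      rw [map_sum, map_zero] at h3
      rw [← h3]
      refine sum_congr rfl fun k _ => ?_
      rw [map_mul, map_pow, map_intCast]
    have h2 := root_bound r hr (fun k => (GG r P Q f).coeff k) (σ z) h1
    rw [coeff_GG r P Q f hf] at h2
    rw [map_mul, map_intCast]
    refine h2.trans ((sum_coeff_le r P Q f H hH).trans ?_)
    nlinarith

end Pool.Agent.W310.VD
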